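import Mathlib

/-!
# Covering a linear order by functional matrices and their transposes

A set of positions can be covered by `k₁` transformation matrices and `k₂` transposed ones if and only if
its elements can be distributed among their rows (capacity `k₁`) and columns (capacity `k₂`). For the
upper triangle Hall's condition reduces to one inequality, which is best for `k₁` and `k₂` as equal as
possible.
-/

set_option autoImplicit false

namespace Pool.Agent.Results.MP_88b6d1_co.ExactValue

open Finset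

/-- The matrix of the transformation `f` of `[n]`: exactly one `1` in each row. -/
def transMatrix {n : ℕ} (f : Fin n → Fin n) : Matrix (Fin n) (Fin n) Bool :=
  fun i j => decide (f i = j)

/-- `A` is a transformation matrix or a transposed transformation matrix. -/
def IsTransOrTransposed {n : ℕ} (A : Matrix (Fin n) (Fin n) Bool) : Prop :=
  ∃ f : Fin n → Fin n, A = transMatrix f ∨ A = (transMatrix f).transpose

/-- The Boolean sum (entrywise maximum) of `k` transformation or transposed transformation matrices is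
above the matrix of the linear order on `[n]`. -/
def Covers (n k : ℕ) : Prop :=
  ∃ A : Fin k → Matrix (Fin n) (Fin n) Bool, (∀ l, IsTransOrTransposed (A l)) ∧
    ∀ i j : Fin n, i ≤ j → ∃ l, A l i j = true

/-- sum of the first `a` row lengths when only `b` columns are left -/
def g (n b a : ℕ) : ℕ := ∑ i ∈ range a, min b (n - i)

theorem sum_le_range {h : ℕ → ℕ} (hh : Antitone h) (I : Finset ℕ) :
    ∑ i ∈ I, h i ≤ ∑ i ∈ range I.card, h i := by
  induction I using Finset.induction_on_max with
  | empty => simp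
  | insert a s hs ih =>
    have hnot : a ∉ s := fun h => lt_irrefl _ (hs a h)
    rw [Finset.sum_insert hnot, Finset.card_insert_of_notMem hnot, Finset.sum_range_succ, add_comm]
    have hcard : s.card ≤ a := by
      calc s.card ≤ (range a).card := Finset.card_le_card fun x hx => Finset.mem_range.2 (hs x hx)
        _ = a := Finset.card_range a
    exact add_le_add ih (hh hcard)

theorem g_small (n b a : ℕ) : g n b a ≤ a * b := by
  unfold g
  calc ∑ i ∈ range a, min b (n - i) ≤ ∑ i ∈ range a, b :=
        Finset.sum_le_sum fun i _ => min_le_left _ _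
    _ = a * b := by simp

theorem g_eq_mul (n b a : ℕ) (h : a + b ≤ n + 1) : g n b a = a * b := by
  unfold g
  rw [Finset.sum_congr rfl (g := fun _ => b)]
  · simp
  · intro i hi
    rw [Finset.mem_range] at hi
    exact min_eq_left (by omega)

theorem g_aux (v m t : ℕ) (ht : t ≤ m) :
    2 * g (v + m) m (v + t) + (m - t) * (m - t + 1) + v * (v + 1) = (v + m) * (v + m + 1) := by
  induction t with
  | zero =>
    rw [g_eq_mul _ _ _ (by omega)]
    simp only [Nat.sub_zero, Nat.add_zero]
    ring
  | succ t ih =>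
    have h1 := ih (by omega)
    have h2 : g (v + m) m (v + (t + 1)) = g (v + m) m (v + t) + (m - t) := by
      unfold g
      rw [show v + (t + 1) = (v + t) + 1 by ring, Finset.sum_range_succ]
      congr 1
      have : v + m - (v + t) = m - t := by omega
      rw [this]
      exact min_eq_right (Nat.sub_le _ _)
    rw [h2]
    obtain ⟨r, hr⟩ : ∃ r, m - t = r + 1 := ⟨m - t - 1, by omega⟩
    have hr2 : m - (t + 1) = r := by omega
    rw [hr] at h1 ⊢
    rw [hr2]
    nlinarith [h1]

/-- with `u = n - a`, `v = n - b` -/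
theorem g_formula (n u v : ℕ) (h : u + v ≤ n) :
    2 * g n (n - v) (n - u) + u * (u + 1) + v * (v + 1) = n * (n + 1) := by
  obtain ⟨w, rfl⟩ : ∃ w, n = v + (u + w) := ⟨n - (u + v), by omega⟩
  have h1 := g_aux v (u + w) w (by omega)
  have e1 : v + (u + w) - v = u + w := by omega
  have e2 : v + (u + w) - u = v + w := by omega
  have e3 : u + w - w = u := by omega
  rw [e1, e2]
  rw [e3] at h1
  exact h1

/-- the number of pairs of the order in the rectangle `I × J` -/
theorem count_le (n : ℕ) (I J : Finset (Fin n)) :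
    ((I ×ˢ J).filter (fun p => p.1 ≤ p.2)).card ≤ g n J.card I.card := by
  have h1 : ((I ×ˢ J).filter (fun p => p.1 ≤ p.2)).card
      = ∑ i ∈ I, (J.filter (fun j => i ≤ j)).card := by
    rw [Finset.card_filter, Finset.sum_product]
    exact Finset.sum_congr rfl fun i _ => by rw [Finset.card_filter]
  have h2 : ∀ i ∈ I, (J.filter (fun j => i ≤ j)).card ≤ min J.card (n - (i : ℕ)) := by
    intro i _
    refine le_min (Finset.card_filter_le _ _) ?_
    calc (J.filter (fun j => i ≤ j)).card ≤ (Finset.Ici i).card :=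
          Finset.card_le_card fun j hj => Finset.mem_Ici.2 (Finset.mem_filter.1 hj).2
      _ = n - i := by simp
  have h3 : ∑ i ∈ I, min J.card (n - (i : ℕ)) = ∑ i ∈ I.map Fin.valEmbedding, min J.card (n - i) := by
    rw [Finset.sum_map]; rfl
  have hanti : Antitone (fun i : ℕ => min J.card (n - i)) := by
    intro a b hab
    exact min_le_min le_rfl (Nat.sub_le_sub_left hab n)
  calc ((I ×ˢ J).filter (fun p => p.1 ≤ p.2)).card
      = ∑ i ∈ I, (J.filter (fun j => i ≤ j)).card := h1
    _ ≤ ∑ i ∈ I, min J.card (n - (i : ℕ)) := Finset.sum_le_sum h2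
    _ = ∑ i ∈ I.map Fin.valEmbedding, min J.card (n - i) := h3
    _ ≤ ∑ i ∈ range (I.map Fin.valEmbedding).card, min J.card (n - i) := sum_le_range hanti _
    _ = g n J.card I.card := by rw [Finset.card_map]; rfl

/-- Hall's condition -/
theorem hall_cond (n k₁ k₂ : ℕ) (h : n * (n + 1) + (k₁ * (k₁ - 1) + k₂ * (k₂ - 1)) ≤ 2 * (k₁ + k₂) * n)
    (h' : (n - (k₁ + k₂)) ^ 2 ≤ 4 * (k₁ * k₂)) (a b : ℕ) (ha : a ≤ n) (hb : b ≤ n) :
    g n b a ≤ k₁ * a + k₂ * b := by
  by_cases hab : n ≤ a + b
  · obtain ⟨u, hu⟩ : ∃ u, u = n - a := ⟨_, rfl⟩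
    obtain ⟨v, hv⟩ : ∃ v, v = n - b := ⟨_, rfl⟩
    have h1 := g_formula n u v (by omega)
    have e1 : n - v = b := by omega
    have e2 : n - u = a := by omega
    rw [e1, e2] at h1
    have hn : n = a + u := by omega
    have hn' : n = b + v := by omega
    -- integers
    have h2 : (2 : ℤ) * g n b a + u * (u + 1) + v * (v + 1) = n * (n + 1) := by exact_mod_cast h1
    have h3 : (n : ℤ) * (n + 1) + (k₁ * (k₁ - 1) + k₂ * (k₂ - 1)) ≤ 2 * (k₁ + k₂) * n := by
      have c1 : ((k₁ * (k₁ - 1) : ℕ) : ℤ) = (k₁ : ℤ) * (k₁ - 1) := by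
        rcases Nat.eq_zero_or_pos k₁ with h0 | h0
        · subst h0; simp
        · rw [Nat.cast_mul, Nat.cast_sub h0]; simp
      have c2 : ((k₂ * (k₂ - 1) : ℕ) : ℤ) = (k₂ : ℤ) * (k₂ - 1) := by
        rcases Nat.eq_zero_or_pos k₂ with h0 | h0
        · subst h0; simp
        · rw [Nat.cast_mul, Nat.cast_sub h0]; simp
      rw [← c1, ← c2]
      exact_mod_cast h
    have h4 : (0 : ℤ) ≤ ((u : ℤ) - k₁) * (u - k₁ + 1) := by
      rcases le_or_gt ((u : ℤ) - k₁) (-1) with h | h
      · exact mul_nonneg_of_nonpos_of_nonpos (by omega) (by omega)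
      · exact mul_nonneg (by omega) (by omega)
    have h5 : (0 : ℤ) ≤ ((v : ℤ) - k₂) * (v - k₂ + 1) := by
      rcases le_or_gt ((v : ℤ) - k₂) (-1) with h | h
      · exact mul_nonneg_of_nonpos_of_nonpos (by omega) (by omega)
      · exact mul_nonneg (by omega) (by omega)
    have ea : (a : ℤ) = n - u := by omega
    have eb : (b : ℤ) = n - v := by omega
    have h6 : (g n b a : ℤ) ≤ k₁ * a + k₂ * b := by
      rw [ea, eb]
      nlinarith [h2, h3, h4, h5]
    exact_mod_cast h6
  · push Not at hab
    have h1 := g_small n b a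
    refine h1.trans ?_
    rcases le_or_gt a k₂ with h2 | h2
    · nlinarith [Nat.mul_le_mul_right b h2]
    rcases le_or_gt b k₁ with h3 | h3
    · nlinarith [Nat.mul_le_mul_left a h3]
    obtain ⟨x, rfl⟩ : ∃ x, a = k₂ + x := ⟨a - k₂, by omega⟩
    obtain ⟨y, rfl⟩ : ∃ y, b = k₁ + y := ⟨b - k₁, by omega⟩
    have h4 : x + y ≤ n - (k₁ + k₂) := by omega
    have h5 : (x + y) ^ 2 ≤ (n - (k₁ + k₂)) ^ 2 := Nat.pow_le_pow_left h4 2
    have h6 : 4 * (x * y) ≤ (x + y) ^ 2 := by
      have : (4 : ℤ) * (x * y) ≤ (x + y) ^ 2 := by nlinarith [sq_nonneg ((x : ℤ) - y)]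
      exact_mod_cast this
    nlinarith [h4, h5, h6, h']

/-- slots adjacent to a position -/
def slots {n : ℕ} (k₁ k₂ : ℕ) (p : {p : Fin n × Fin n // p.1 ≤ p.2}) :
    Finset ((Fin k₁ × Fin n) ⊕ (Fin k₂ × Fin n)) :=
  (univ ×ˢ {p.1.1}).disjSum (univ ×ˢ {p.1.2})

theorem covers_of (n k₁ k₂ : ℕ) (hn : 0 < n)
    (h : n * (n + 1) + (k₁ * (k₁ - 1) + k₂ * (k₂ - 1)) ≤ 2 * (k₁ + k₂) * n)
    (h' : (n - (k₁ + k₂)) ^ 2 ≤ 4 * (k₁ * k₂)) : Covers n (k₁ + k₂) := by
  classical
  have hall : ∀ s : Finset {p : Fin n × Fin n // p.1 ≤ p.2}, s.card ≤ (s.biUnion (slots k₁ k₂)).card := by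
    intro s
    set I := s.image (fun p => p.1.1) with hI
    set J := s.image (fun p => p.1.2) with hJ
    have h1 : s.biUnion (slots k₁ k₂) = (univ ×ˢ I).disjSum (univ ×ˢ J) := by
      ext x
      simp only [Finset.mem_biUnion, slots, Finset.mem_disjSum, Finset.mem_product, Finset.mem_univ,
        true_and, Finset.mem_singleton, hI, hJ, Finset.mem_image]
      constructor
      · rintro ⟨p, hp, ⟨y, hy, rfl⟩ | ⟨y, hy, rfl⟩⟩
        · exact Or.inl ⟨y, ⟨p, hp, hy.symm⟩, rfl⟩
        · exact Or.inr ⟨y, ⟨p, hp, hy.symm⟩, rfl⟩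
      · rintro (⟨y, ⟨p, hp, hy⟩, rfl⟩ | ⟨y, ⟨p, hp, hy⟩, rfl⟩)
        · exact ⟨p, hp, Or.inl ⟨y, hy.symm, rfl⟩⟩
        · exact ⟨p, hp, Or.inr ⟨y, hy.symm, rfl⟩⟩
    rw [h1, Finset.card_disjSum, Finset.card_product, Finset.card_product, Finset.card_univ,
      Finset.card_univ, Fintype.card_fin, Fintype.card_fin]
    have h2 : s.card ≤ ((I ×ˢ J).filter (fun p => p.1 ≤ p.2)).card := by
      apply Finset.card_le_card_of_injOn (fun p => p.1)
      · intro p hp
        simp only [Finset.coe_filter, Finset.mem_product, Set.mem_ofPred_eq]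
        exact ⟨⟨Finset.mem_image_of_mem _ hp, Finset.mem_image_of_mem _ hp⟩, p.2⟩
      · intro p _ q _ hpq
        exact Subtype.ext hpq
    have ha : I.card ≤ n := by simpa using Finset.card_le_univ I
    have hb : J.card ≤ n := by simpa using Finset.card_le_univ J
    exact h2.trans ((count_le n I J).trans (hall_cond n k₁ k₂ h h' _ _ ha hb))
  obtain ⟨φ, hφ, hmem⟩ := (Finset.all_card_le_biUnion_card_iff_exists_injective _).1 hall
  have hdef : Fin n := ⟨0, hn⟩
  -- transformations
  set f : Fin k₁ → Fin n → Fin n := fun c i =>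
    if h : ∃ p, φ p = Sum.inl (c, i) then h.choose.1.2 else hdef with hf
  set e : Fin k₂ → Fin n → Fin n := fun c j =>
    if h : ∃ p, φ p = Sum.inr (c, j) then h.choose.1.1 else hdef with he
  obtain ⟨A, hA1, hA2⟩ : ∃ A : Fin (k₁ + k₂) → Matrix (Fin n) (Fin n) Bool,
      (∀ c, A (Fin.castAdd k₂ c) = transMatrix (f c)) ∧
      (∀ c, A (Fin.natAdd k₁ c) = (transMatrix (e c)).transpose) :=
    ⟨Fin.addCases (motive := fun _ => Matrix (Fin n) (Fin n) Bool) (fun c => transMatrix (f c))
      (fun c => (transMatrix (e c)).transpose), fun c => Fin.addCases_left c,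
      fun c => Fin.addCases_right c⟩
  refine ⟨A, ?_, ?_⟩
  · intro l
    refine Fin.addCases (fun c => ?_) (fun c => ?_) l
    · exact ⟨f c, Or.inl (hA1 c)⟩
    · exact ⟨e c, Or.inr (hA2 c)⟩
  · intro i j hij
    have hm := hmem ⟨(i, j), hij⟩
    simp only [slots, Finset.mem_disjSum, Finset.mem_product, Finset.mem_univ, true_and,
      Finset.mem_singleton] at hm
    rcases hm with ⟨⟨c, i'⟩, hi', hc⟩ | ⟨⟨c, j'⟩, hj', hc⟩
    · simp only at hi'
      subst hi'
      refine ⟨Fin.castAdd k₂ c, (congrFun (congrFun (hA1 c) i') j).trans ?_⟩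
      have hex : ∃ p, φ p = Sum.inl (c, i') := ⟨_, hc.symm⟩
      have hch : hex.choose = ⟨(i', j), hij⟩ := hφ (hex.choose_spec.trans hc)
      have : f c i' = j := by
        rw [hf]
        simp only
        rw [dif_pos hex, hch]
      simp [transMatrix, this]
    · simp only at hj'
      subst hj'
      refine ⟨Fin.natAdd k₁ c, (congrFun (congrFun (hA2 c) i) j').trans ?_⟩
      have hex : ∃ p, φ p = Sum.inr (c, j') := ⟨_, hc.symm⟩
      have hch : hex.choose = ⟨(i, j'), hij⟩ := hφ (hex.choose_spec.trans hc)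
      have : e c j' = i := by
        rw [he]
        simp only
        rw [dif_pos hex, hch]
      simp [transMatrix, this]

/-- the lower bound -/
theorem lower (n k : ℕ) (hk : k < n) (h : Covers n k) :
    2 * n * (n + 1) + k ^ 2 ≤ 4 * k * n + 2 * k := by
  classical
  obtain ⟨A, hA, hcov⟩ := h
  set P : Finset (Fin k) := univ.filter (fun l => ∃ f, A l = transMatrix f) with hP
  set Q : Finset (Fin k) := univ.filter (fun l => ¬ ∃ f, A l = transMatrix f) with hQ
  have hPQ : P.card + Q.card = k := by
    have := Finset.card_filter_add_card_filter_not (s := (univ : Finset (Fin k)))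
      (fun l => ∃ f, A l = transMatrix f)
    simpa [hP, hQ] using this
  set k₁ := P.card with hk₁
  set k₂ := Q.card with hk₂
  -- the region
  set I : Finset (Fin n) := univ.filter (fun i => (i : ℕ) < n - k₁) with hI
  set J : Finset (Fin n) := univ.filter (fun j => k₂ ≤ (j : ℕ)) with hJ
  have hIc : I.card = n - k₁ := by
    rw [hI, Fin.card_filter_val_lt]
    omega
  have hJc : J.card = n - k₂ := by
    have h1 := Finset.card_filter_add_card_filter_not (s := (univ : Finset (Fin n)))
      (fun j => (j : ℕ) < k₂)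
    rw [Fin.card_filter_val_lt, Finset.card_univ, Fintype.card_fin] at h1
    have h2 : (univ.filter (fun j : Fin n => ¬ (j : ℕ) < k₂)) = J := by
      ext j; simp [hJ]
    rw [h2] at h1
    omega
  set E : Finset (Fin n × Fin n) := (I ×ˢ J).filter (fun p => p.1 ≤ p.2) with hE
  -- count of E
  have hEc : E.card = g n (n - k₂) (n - k₁) := by
    rw [hE, Finset.card_filter, Finset.sum_product]
    have h1 : ∀ i ∈ I, ∑ j ∈ J, (if (i, j).1 ≤ (i, j).2 then 1 else 0) = min (n - k₂) (n - (i : ℕ)) := by
      intro i _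
      rw [← Finset.card_filter]
      simp only
      rcases le_or_gt (i : ℕ) k₂ with h | h
      · have : J.filter (fun j => i ≤ j) = J := by
          apply Finset.filter_true_of_mem
          intro j hj
          rw [hJ, Finset.mem_filter] at hj
          exact Fin.le_def.2 (h.trans hj.2)
        rw [this, hJc, min_eq_left]
        omega
      · have : J.filter (fun j => i ≤ j) = Finset.Ici i := by
          ext j
          simp only [hJ, Finset.mem_filter, Finset.mem_univ, true_and, Finset.mem_Ici,
            and_iff_right_iff_imp]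
          intro hij
          have := Fin.le_def.1 hij
          omega
        rw [this, Fin.card_Ici, min_eq_right]
        omega
    rw [Finset.sum_congr rfl h1]
    unfold g
    have h2 : I.map Fin.valEmbedding = range (n - k₁) := by
      ext x
      simp only [hI, Finset.mem_map, Finset.mem_filter, Finset.mem_univ, true_and,
        Fin.valEmbedding_apply, Finset.mem_range]
      constructor
      · rintro ⟨i, hi, rfl⟩; exact hi
      · intro hx; exact ⟨⟨x, by omega⟩, hx, rfl⟩
    rw [← h2, Finset.sum_map]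
    rfl
  -- upper bound for the count
  have hEle : E.card ≤ k₁ * (n - k₁) + k₂ * (n - k₂) := by
    have hsub : E ⊆ (P.biUnion fun l => E.filter (fun p => A l p.1 p.2 = true)) ∪
        (Q.biUnion fun l => E.filter (fun p => A l p.1 p.2 = true)) := by
      intro p hp
      have hp' := (Finset.mem_filter.1 hp).2
      obtain ⟨l, hl⟩ := hcov p.1 p.2 hp'
      rw [Finset.mem_union, Finset.mem_biUnion, Finset.mem_biUnion]
      by_cases hlP : ∃ f, A l = transMatrix f
      · left; exact ⟨l, by simp [hP, hlP], Finset.mem_filter.2 ⟨hp, hl⟩⟩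
      · right; exact ⟨l, by simpa [hQ] using hlP, Finset.mem_filter.2 ⟨hp, hl⟩⟩
    have hb1 : (P.biUnion fun l => E.filter (fun p => A l p.1 p.2 = true)).card ≤ k₁ * (n - k₁) := by
      apply Finset.card_biUnion_le_card_mul
      intro l hl
      rw [hP, Finset.mem_filter] at hl
      obtain ⟨f, hf⟩ := hl.2
      rw [← hIc]
      apply Finset.card_le_card_of_injOn (fun p => p.1)
      · intro p hp
        simp only [Finset.coe_filter, Set.mem_ofPred_eq, hE, Finset.mem_filter,
          Finset.mem_product] at hp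
        exact hp.1.1.1
      · intro p hp q hq hpq
        simp only [Finset.coe_filter, Set.mem_ofPred_eq] at hp hq
        have e1 := hp.2
        have e2 := hq.2
        rw [hf] at e1 e2
        simp only [transMatrix, decide_eq_true_eq] at e1 e2
        simp only at hpq
        exact Prod.ext hpq (by rw [← e1, ← e2, hpq])
    have hb2 : (Q.biUnion fun l => E.filter (fun p => A l p.1 p.2 = true)).card ≤ k₂ * (n - k₂) := by
      apply Finset.card_biUnion_le_card_mul
      intro l hl
      rw [hQ, Finset.mem_filter] at hl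
      obtain ⟨f, hf⟩ : ∃ f, A l = (transMatrix f).transpose := by
        obtain ⟨f, hf | hf⟩ := hA l
        · exact absurd ⟨f, hf⟩ hl.2
        · exact ⟨f, hf⟩
      rw [← hJc]
      apply Finset.card_le_card_of_injOn (fun p => p.2)
      · intro p hp
        simp only [Finset.coe_filter, Set.mem_ofPred_eq, hE, Finset.mem_filter,
          Finset.mem_product] at hp
        exact hp.1.1.2
      · intro p hp q hq hpq
        simp only [Finset.coe_filter, Set.mem_ofPred_eq] at hp hq
        have e1 := hp.2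
        have e2 := hq.2
        rw [hf] at e1 e2
        simp only [transMatrix, Matrix.transpose_apply, decide_eq_true_eq] at e1 e2
        simp only at hpq
        exact Prod.ext (by rw [← e1, ← e2, hpq]) hpq
    calc E.card ≤ _ := Finset.card_le_card hsub
      _ ≤ _ := Finset.card_union_le _ _
      _ ≤ k₁ * (n - k₁) + k₂ * (n - k₂) := add_le_add hb1 hb2
  have hform := g_formula n k₁ k₂ (by omega)
  rw [← hEc] at hform
  obtain ⟨x, hx⟩ : ∃ x, n = k₁ + x := ⟨n - k₁, by omega⟩
  obtain ⟨y, hy⟩ : ∃ y, n = k₂ + y := ⟨n - k₂, by omega⟩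
  have hx' : n - k₁ = x := by omega
  have hy' : n - k₂ = y := by omega
  rw [hx', hy'] at hEle
  have z1 : (2 : ℤ) * E.card + k₁ * (k₁ + 1) + k₂ * (k₂ + 1) = n * (n + 1) := by exact_mod_cast hform
  have z2 : (E.card : ℤ) ≤ k₁ * (n - k₁) + k₂ * (n - k₂) := by
    have : (E.card : ℤ) ≤ k₁ * x + k₂ * y := by exact_mod_cast hEle
    have ex : (x : ℤ) = n - k₁ := by omega
    have ey : (y : ℤ) = n - k₂ := by omega
    rw [ex, ey] at this
    exact this
  have z3 : (k : ℤ) = k₁ + k₂ := by exact_mod_cast hPQ.symm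
  have : (2 : ℤ) * n * (n + 1) + k ^ 2 ≤ 4 * k * n + 2 * k := by
    rw [z3]
    nlinarith [sq_nonneg ((k₁ : ℤ) - k₂)]
  exact_mod_cast this

/-- The least number of transformation and transposed transformation matrices whose Boolean sum is above
the matrix of a linear order on `n` points. -/
theorem result (n : ℕ) (hn : 1 ≤ n) :
    IsLeast {k : ℕ | Covers n k} (⌊2 * (n : ℝ) + 1 - √(2 * (n : ℝ) ^ 2 + 2 * n + 4)⌋₊ + 1) := by
  set x : ℝ := 2 * (n : ℝ) + 1 - √(2 * (n : ℝ) ^ 2 + 2 * n + 4) with hx
  set K : ℕ := ⌊x⌋₊ + 1 with hK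
  have hnr : (1 : ℝ) ≤ n := by exact_mod_cast hn
  have hxK : ∀ k : ℕ, k ≠ 0 → (K ≤ k ↔ x < k) := by
    intro k hk
    rw [hK, Nat.add_one_le_iff, Nat.floor_lt' hk]
  have hcrit : ∀ k : ℕ, k ≠ 0 → k ≤ n → (K ≤ k ↔ 2 * n * (n + 1) + k ^ 2 < 4 * k * n + 2 * k + 3) := by
    intro k hk hkn
    rw [hxK k hk, hx]
    have hkr : (k : ℝ) ≤ n := by exact_mod_cast hkn
    have h1 : (2 * (n : ℝ) + 1 - √(2 * (n : ℝ) ^ 2 + 2 * n + 4) < k) ↔
        (2 * (n : ℝ) + 1 - k < √(2 * (n : ℝ) ^ 2 + 2 * n + 4)) := by
      constructor <;> intro h <;> linarith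
    rw [h1, Real.lt_sqrt (by linarith)]
    have h2 : ((2 * n * (n + 1) + k ^ 2 < 4 * k * n + 2 * k + 3 : Prop)) ↔
        (2 * (n : ℝ) * (n + 1) + k ^ 2 < 4 * k * n + 2 * k + 3) := by
      constructor
      · intro h; exact_mod_cast h
      · intro h; exact_mod_cast h
    rw [h2]
    constructor <;> intro h <;> nlinarith
  have hKn : K ≤ n := by
    rw [hcrit n (by omega) le_rfl]
    nlinarith
  have hK0 : K ≠ 0 := by omega
  have hineq := (hcrit K hK0 hKn).1 le_rfl
  constructor
  · -- the upper bound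
    show Covers n K
    have hsplit : ∃ j r : ℕ, K = j + (j + r) ∧ r ≤ 1 := by
      refine ⟨K / 2, K % 2, by omega, by omega⟩
    obtain ⟨j, r, hKj, hr⟩ := hsplit
    rw [hKj]
    rw [hKj] at hineq
    obtain ⟨q, hq⟩ : ∃ q, n * (n + 1) = 2 * q := by
      obtain ⟨q, hq⟩ := Nat.even_mul_succ_self n
      exact ⟨q, by rw [hq]; ring⟩
    have hjj : j * (j - 1) + j = j * j := by
      rcases Nat.eq_zero_or_pos j with h | h
      · subst h; simp
      · obtain ⟨m, rfl⟩ : ∃ m, j = m + 1 := ⟨j - 1, by omega⟩
        simp; ring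
    have hr01 : r = 0 ∨ r = 1 := by omega
    have main : n * (n + 1) + (j * (j - 1) + (j + r) * (j + r - 1)) ≤ 2 * (j + (j + r)) * n := by
      rcases hr01 with rfl | rfl
      · simp only [Nat.add_zero] at hineq ⊢
        have e1 : 2 * n * (n + 1) = 4 * q := by linarith
        rw [e1] at hineq
        rw [hq]
        have e2 : (j + j) ^ 2 = 4 * (j * j) := by ring
        have e3 : 4 * (j + j) * n = 8 * (j * n) := by ring
        have e4 : 2 * (j + j) * n = 4 * (j * n) := by ring
        rw [e2, e3] at hineq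
        rw [e4]
        generalize j * (j - 1) = A at *
        generalize j * j = B at *
        generalize j * n = C at *
        omega
      · have e1 : 2 * n * (n + 1) = 4 * q := by linarith
        rw [e1] at hineq
        rw [hq]
        have e2 : (j + (j + 1)) ^ 2 = 4 * (j * j) + 4 * j + 1 := by ring
        have e3 : 4 * (j + (j + 1)) * n = 8 * (j * n) + 4 * n := by ring
        have e4 : 2 * (j + (j + 1)) * n = 4 * (j * n) + 2 * n := by ring
        have e5 : (j + 1) * (j + 1 - 1) = j * j + j := by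
          rw [Nat.add_sub_cancel]; ring
        rw [e2, e3] at hineq
        rw [e4, e5]
        generalize j * (j - 1) = A at *
        generalize j * j = B at *
        generalize j * n = C at *
        omega
    apply covers_of n j (j + r) (by omega) main
    -- the small rectangles
    have hlow : n + 1 ≤ 2 * (j + (j + r)) := by
      by_contra hlt
      push Not at hlt
      have h1 : 2 * (j + (j + r)) ≤ n := by omega
      have h2 : 2 * (j + (j + r)) * n ≤ n * n := Nat.mul_le_mul_right n h1
      nlinarith [main, h2]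
    have h3 : n - (j + (j + r)) ≤ 2 * j := by omega
    calc (n - (j + (j + r))) ^ 2 ≤ (2 * j) ^ 2 := Nat.pow_le_pow_left h3 2
      _ ≤ 4 * (j * (j + r)) := by nlinarith
  · intro k hk
    have hk : Covers n k := hk
    have hk0 : k ≠ 0 := by
      rintro rfl
      obtain ⟨A, _, hcov⟩ := hk
      obtain ⟨l, _⟩ := hcov ⟨0, by omega⟩ ⟨0, by omega⟩ le_rfl
      exact l.elim0
    rcases lt_or_ge k n with hkn | hkn
    · have h1 := lower n k hkn hk
      rw [hcrit k hk0 hkn.le]
      omega
    · omega

end Pool.Agent.Results.MP_88b6d1_co.ExactValue
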